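import Mathlib

namespace Pool.Agent.Results.MP_405423_al.Yes

open scoped BigOperators

/-- `N_{w,G}(g)`: the number of tuples in `G^r` on which the word `w` takes the value `g`. -/
noncomputable def wordCount (G : Type) [Group G] {r : ℕ} (w : FreeGroup (Fin r)) (g : G) : ℕ :=
  Nat.card {x : Fin r → G // FreeGroup.lift x w = g}

/-- `χ` is a complex irreducible character of `G`. -/
def IsIrrChar (G : Type) [Group G] (χ : G → ℂ) : Prop :=
  ∃ (n : ℕ) (ρ : Representation ℂ G (Fin n → ℂ)), ρ.IsIrreducible ∧ χ = ρ.character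

/-- The standard inner product of class functions. -/
noncomputable def inner (G : Type) [Group G] [Finite G] (f h : G → ℂ) : ℂ :=
  (Nat.card G : ℂ)⁻¹ * ∑ᶠ g : G, f g * (starRingEnd ℂ) (h g)

/-- `G` is semi-rational: every `N_{w,G}` has integer inner product with every irreducible
character, that is, it is a generalized character. -/
def SemiRational (G : Type) [Group G] [Finite G] : Prop :=
  ∀ (r : ℕ), 1 ≤ r → ∀ (w : FreeGroup (Fin r)) (χ : G → ℂ), IsIrrChar G χ →
    ∃ m : ℤ, inner G (fun g => (wordCount G w g : ℂ)) χ = m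

section aux

lemma char_integral {G : Type} [Group G] [Finite G] {n : ℕ} (ρ : Representation ℂ G (Fin n → ℂ))
    (g : G) : IsIntegral ℤ (ρ.character g) := by
  unfold Representation.character
  rw [Module.End.trace_eq_sum_roots_charpoly_of_splits (IsAlgClosed.splits _)]
  refine (integralClosure ℤ ℂ).multiset_sum_mem ?_
  intro μ hμ
  have h1 : Module.End.HasEigenvalue (ρ g) μ := by
    rw [Module.End.hasEigenvalue_iff_isRoot_charpoly]
    exact (Polynomial.mem_roots (LinearMap.charpoly_monic _).ne_zero).1 hμ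
  obtain ⟨v, hv⟩ := h1.exists_hasEigenvector
  have h2 := hv.pow_apply (orderOf g)
  rw [← map_pow, pow_orderOf_eq_one, map_one] at h2
  have h3 : μ ^ orderOf g = 1 := by
    have : (μ ^ orderOf g - 1) • v = 0 := by
      rw [sub_smul, ← h2]; simp
    rcases smul_eq_zero.1 this with h | h
    · exact sub_eq_zero.1 h
    · exact absurd h hv.2
  have hpos : 0 < orderOf g := orderOf_pos g
  exact IsIntegral.of_pow hpos (by rw [h3]; exact isIntegral_one)

lemma inner_eq {G : Type} [Group G] [Fintype G] {r : ℕ} (w : FreeGroup (Fin r)) (χ : G → ℂ) :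
    inner G (fun g => (wordCount G w g : ℂ)) χ =
      (Nat.card G : ℂ)⁻¹ * ∑ x : Fin r → G, (starRingEnd ℂ) (χ (FreeGroup.lift x w)) := by
  classical
  unfold inner wordCount
  congr 1
  rw [finsum_eq_sum_of_fintype,
    ← Finset.sum_fiberwise (s := Finset.univ) (g := fun x : Fin r → G => FreeGroup.lift x w)]
  refine Finset.sum_congr rfl fun g _ => ?_
  rw [Finset.sum_congr rfl (g := fun _ => (starRingEnd ℂ) (χ g))]
  · simp [Nat.card_eq_fintype_card, Fintype.card_subtype]
  · intro x hx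
    rw [(Finset.mem_filter.1 hx).2]

/-- Homomorphisms agreeing with `φ` on the kernel of a degree map are counted by the
centralizer. -/
lemma card_agree {F G : Type} [Group F] [Group G] (d : F →* Multiplicative ℤ) (t : F)
    (ht : d t = Multiplicative.ofAdd 1) (φ : F →* G) :
    Nat.card {ψ : F →* G // ∀ k, d k = 1 → ψ k = φ k} =
      Nat.card {c : G // ∀ k, d k = 1 → c * φ k = φ k * c} := by
  have hk : ∀ x : F, d (x * t ^ (-(Multiplicative.toAdd (d x)))) = 1 := by
    intro x
    rw [map_mul, map_zpow, ht, ← ofAdd_zsmul]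
    simp
  have hconj : ∀ (s : G), (∀ k, d k = 1 → s * φ k * s⁻¹ = φ (t * k * t⁻¹)) →
      ∀ (a : ℤ) (k : F), d k = 1 → s ^ a * φ k * (s ^ a)⁻¹ = φ (t ^ a * k * (t ^ a)⁻¹) := by
    intro s hs a
    induction a using Int.induction_on with
    | zero => intro k _; simp
    | succ a ih =>
      intro k hk
      have h1 := hs k hk
      have h2 := ih (t * k * t⁻¹) (by simp [hk])
      calc s ^ ((a : ℤ) + 1) * φ k * (s ^ ((a : ℤ) + 1))⁻¹
          = s ^ (a : ℤ) * (s * φ k * s⁻¹) * (s ^ (a : ℤ))⁻¹ := by group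
        _ = _ := by rw [h1, h2]; congr 1; group
    | pred a ih =>
      intro k hk
      have h1 := hs (t⁻¹ * k * t) (by simp [hk])
      have h2 := ih (t⁻¹ * k * t) (by simp [hk])
      have h3 : φ (t⁻¹ * k * t) = s⁻¹ * φ k * s := by
        have : t * (t⁻¹ * k * t) * t⁻¹ = k := by group
        rw [this] at h1
        rw [← h1]; group
      calc s ^ (-(a : ℤ) - 1) * φ k * (s ^ (-(a : ℤ) - 1))⁻¹
          = s ^ (-(a : ℤ)) * (s⁻¹ * φ k * s) * (s ^ (-(a : ℤ)))⁻¹ := by group
        _ = _ := by rw [← h3, h2]; congr 1; group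
  refine Nat.card_congr (Equiv.ofBijective (fun ψ => ⟨(φ t)⁻¹ * ψ.1 t, fun k hk' => ?_⟩) ⟨?_, ?_⟩)
  · have h1 := ψ.2 (t * k * t⁻¹) (by simp [hk'])
    simp only [map_mul, map_inv] at h1
    rw [ψ.2 k hk'] at h1
    calc (φ t)⁻¹ * ψ.1 t * φ k = (φ t)⁻¹ * (ψ.1 t * φ k * (ψ.1 t)⁻¹) * ψ.1 t := by group
      _ = _ := by rw [h1]; group
  · intro ψ ψ' h
    have h1 : ψ.1 t = ψ'.1 t := by
      have := congrArg Subtype.val h
      simpa using this
    refine Subtype.ext (MonoidHom.ext fun x => ?_)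
    have h2 := (ψ.2 _ (hk x)).trans (ψ'.2 _ (hk x)).symm
    simp only [map_mul, map_zpow, h1] at h2
    exact mul_right_cancel h2
  · rintro ⟨c, hc⟩
    have hs : ∀ k, d k = 1 → (φ t * c) * φ k * (φ t * c)⁻¹ = φ (t * k * t⁻¹) := by
      intro k hk'
      simp only [map_mul, map_inv]
      calc φ t * c * φ k * (φ t * c)⁻¹ = φ t * (c * φ k) * c⁻¹ * (φ t)⁻¹ := by group
        _ = _ := by rw [hc k hk']; group
    let ψ : F →* G := MonoidHom.mk'
      (fun x => φ (x * t ^ (-(Multiplicative.toAdd (d x)))) *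
        (φ t * c) ^ (Multiplicative.toAdd (d x))) (by
        intro x y
        have h1 := hconj _ hs (Multiplicative.toAdd (d x)) _ (hk y)
        simp only [map_mul d, toAdd_mul]
        generalize Multiplicative.toAdd (d x) = a at *
        generalize Multiplicative.toAdd (d y) = b at *
        generalize φ t * c = s at *
        calc φ (x * y * t ^ (-(a + b))) * s ^ (a + b)
            = φ (x * t ^ (-a) * (t ^ a * (y * t ^ (-b)) * (t ^ a)⁻¹)) * s ^ (a + b) := by
              congr 2; group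
          _ = _ := by rw [map_mul, ← h1]; group)
    refine ⟨⟨ψ, fun k hk' => ?_⟩, Subtype.ext ?_⟩
    · simp [ψ, hk']
    · simp [ψ, ht]

lemma card_class {F G : Type} [Group F] [Group G] [Finite G] [Finite (F →* G)]
    (d : F →* Multiplicative ℤ) (t : F) (ht : d t = Multiplicative.ofAdd 1) (φ : F →* G) :
    Nat.card {ψ : F →* G // ∃ g : G, ∀ k, d k = 1 → ψ k = g * φ k * g⁻¹} = Nat.card G := by
  classical
  set C := {c : G // ∀ k, d k = 1 → c * φ k = φ k * c}
  have hC : 0 < Nat.card C := by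
    haveI : Nonempty C := ⟨⟨1, by simp⟩⟩
    exact Nat.card_pos
  let P := {p : G × (F →* G) // ∀ k, d k = 1 → p.2 k = p.1 * φ k * p.1⁻¹}
  have h1 : Nat.card P = Nat.card G * Nat.card C := by
    rw [← card_agree d t ht φ, ← Nat.card_prod]
    refine Nat.card_congr
      { toFun := fun p => (p.1.1, ⟨(MulAut.conj p.1.1⁻¹).toMonoidHom.comp p.1.2, fun k hk => ?_⟩)
        invFun := fun q => ⟨(q.1, (MulAut.conj q.1).toMonoidHom.comp q.2.1), fun k hk => ?_⟩
        left_inv := ?_
        right_inv := ?_ }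
    · simp [p.2 k hk, mul_assoc]
    · simp [q.2.2 k hk]
    · rintro ⟨⟨g, ψ⟩, h⟩
      ext x <;> simp [mul_assoc]
    · rintro ⟨g, ψ, h⟩
      ext x <;> simp [mul_assoc]
  have h2 : Nat.card P =
      Nat.card {ψ : F →* G // ∃ g : G, ∀ k, d k = 1 → ψ k = g * φ k * g⁻¹} * Nat.card C := by
    rw [← Nat.card_prod]
    symm
    refine Nat.card_congr (Equiv.ofBijective
      (fun q => ⟨(q.1.2.choose * q.2.1, q.1.1), fun k hk => ?_⟩) ⟨?_, ?_⟩)
    · have h3 := q.1.2.choose_spec k hk
      have h4 := q.2.2 k hk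
      simp only
      rw [h3, mul_assoc _ q.2.1, h4]; group
    · rintro ⟨ψ, c⟩ ⟨ψ', c'⟩ h
      have h3 := congrArg (fun p : P => p.1.2) h
      have h4 := congrArg (fun p : P => p.1.1) h
      simp only at h3 h4
      obtain rfl : ψ = ψ' := Subtype.ext h3
      rw [Subtype.ext (mul_left_cancel h4)]
    · rintro ⟨⟨g, ψ⟩, h⟩
      have hψ : ∃ g : G, ∀ k, d k = 1 → ψ k = g * φ k * g⁻¹ := ⟨g, h⟩
      refine ⟨(⟨ψ, hψ⟩, ⟨hψ.choose⁻¹ * g, fun k hk => ?_⟩), ?_⟩
      · have h3 := hψ.choose_spec k hk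
        have h4 := h k hk
        simp only at h4
        rw [h4] at h3
        calc hψ.choose⁻¹ * g * φ k = hψ.choose⁻¹ * (g * φ k * g⁻¹) * g := by group
          _ = _ := by rw [h3]; group
      · simp
  rw [h1] at h2
  exact (Nat.eq_of_mul_eq_mul_right hC h2).symm

lemma sum_integral {F G : Type} [Group F] [Group G] [Finite G] [Fintype (F →* G)]
    (d : F →* Multiplicative ℤ) (t : F) (ht : d t = Multiplicative.ofAdd 1) (w : F) (hw : d w = 1)
    (f : G → ℂ) (hf : ∀ g h, f (h * g * h⁻¹) = f g) (hi : ∀ g, IsIntegral ℤ (f g)) :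
    IsIntegral ℤ ((Nat.card G : ℂ)⁻¹ * ∑ ψ : F →* G, f (ψ w)) := by
  classical
  let s : Setoid (F →* G) :=
    { r := fun ψ φ => ∃ g : G, ∀ k, d k = 1 → ψ k = g * φ k * g⁻¹
      iseqv := ⟨fun φ => ⟨1, by simp⟩,
        fun ⟨g, h⟩ => ⟨g⁻¹, fun k hk => by rw [h k hk]; group⟩,
        fun ⟨g, h⟩ ⟨g', h'⟩ => ⟨g * g', fun k hk => by rw [h k hk, h' k hk]; group⟩⟩ }
  haveI : Fintype (Quotient s) := Fintype.ofFinite _
  rw [← Finset.sum_fiberwise (s := Finset.univ) (g := fun ψ : F →* G => Quotient.mk s ψ),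
    Finset.mul_sum]
  refine IsIntegral.sum _ fun q _ => ?_
  obtain ⟨φ, rfl⟩ := q.exists_rep
  rw [Finset.sum_congr rfl (g := fun _ => f (φ w))]
  · have hc : (Finset.univ.filter fun ψ : F →* G => Quotient.mk s ψ = Quotient.mk s φ).card =
        Nat.card G := by
      rw [← card_class d t ht φ, Nat.card_eq_fintype_card, Fintype.card_subtype]
      congr 1
      ext ψ
      simp only [Finset.mem_filter, Finset.mem_univ, true_and, Quotient.eq]
      rfl
    have hG : (Nat.card G : ℂ) ≠ 0 := Nat.cast_ne_zero.2 Nat.card_pos.ne'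
    rw [Finset.sum_const, hc, nsmul_eq_mul, ← mul_assoc, inv_mul_cancel₀ hG, one_mul]
    exact hi _
  · intro ψ hψ
    obtain ⟨g, hg⟩ := Quotient.exact (Finset.mem_filter.1 hψ).2
    rw [hg w hw, hf]

lemma exists_degree {r : ℕ} (hr : 2 ≤ r) (w : FreeGroup (Fin r)) :
    ∃ (d : FreeGroup (Fin r) →* Multiplicative ℤ) (t : FreeGroup (Fin r)),
      d t = Multiplicative.ofAdd 1 ∧ d w = 1 := by
  classical
  let i : Fin r := ⟨0, by omega⟩
  let j : Fin r := ⟨1, by omega⟩
  have hij : i ≠ j := by simp [i, j]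
  let e : Fin r → (FreeGroup (Fin r) →* Multiplicative ℤ) := fun k =>
    FreeGroup.lift fun l => Multiplicative.ofAdd (if l = k then 1 else 0)
  set a := Multiplicative.toAdd (e i w) with ha
  set b := Multiplicative.toAdd (e j w) with hb
  by_cases h0 : a = 0
  · refine ⟨e i, FreeGroup.of i, by simp [e], ?_⟩
    rw [← ofAdd_toAdd (e i w), ← ha, h0]; rfl
  · have hg : 0 < Int.gcd a b := Int.gcd_pos_of_ne_zero_left _ h0
    obtain ⟨a', b', hab, ha', hb'⟩ := Int.exists_gcd_one hg
    obtain ⟨u, v, huv⟩ := Int.isCoprime_iff_gcd_eq_one.2 hab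
    refine ⟨(e i) ^ b' * (e j) ^ (-a'), FreeGroup.of i ^ v * FreeGroup.of j ^ (-u), ?_, ?_⟩
    · apply Multiplicative.toAdd.injective
      simp [e, hij, hij.symm]
      linarith
    · apply Multiplicative.toAdd.injective
      simp only [MonoidHom.mul_apply, MonoidHom.zpow_apply, toAdd_mul, toAdd_zpow, ← ha, ← hb,
        toAdd_one, smul_eq_mul]
      generalize (Int.gcd a b : ℤ) = g at *
      rw [ha', hb']; ring

end aux

/-- A quotient of a finite semi-rational group is semi-rational. -/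
theorem result (G : Type) [Group G] [Finite G] (N : Subgroup G) [N.Normal]
    (hG : SemiRational G) : SemiRational (G ⧸ N) := by
  classical
  intro r hr w χ hχ
  obtain ⟨n, ρ, hρ, rfl⟩ := hχ
  haveI := Fintype.ofFinite G
  haveI := Fintype.ofFinite (G ⧸ N)
  let π : G →* G ⧸ N := QuotientGroup.mk' N
  have hπ : Function.Surjective π := QuotientGroup.mk'_surjective N
  let σ : Representation ℂ G (Fin n → ℂ) := MonoidHom.comp ρ π
  have hσ : σ.IsIrreducible := by
    let E : Subrepresentation σ ≃o Subrepresentation ρ :=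
      { toFun := fun S => ⟨S.toSubmodule, fun g v hv => by
          obtain ⟨g', rfl⟩ := hπ g
          exact S.apply_mem_toSubmodule g' hv⟩
        invFun := fun S => ⟨S.toSubmodule, fun g v hv => S.apply_mem_toSubmodule (π g) hv⟩
        left_inv := fun S => rfl
        right_inv := fun S => rfl
        map_rel_iff' := Iff.rfl }
    exact E.isSimpleOrder_iff.2 hρ
  obtain ⟨m, hm⟩ := hG r hr w σ.character ⟨n, σ, hσ, rfl⟩
  rw [inner_eq] at hm ⊢
  have hsum : ∑ x : Fin r → G, (starRingEnd ℂ) (σ.character (FreeGroup.lift x w)) =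
      (Nat.card N : ℂ) ^ r *
        ∑ y : Fin r → G ⧸ N, (starRingEnd ℂ) (ρ.character (FreeGroup.lift y w)) := by
    rw [← Finset.sum_fiberwise (s := Finset.univ) (g := fun (x : Fin r → G) => π ∘ x),
      Finset.mul_sum]
    refine Finset.sum_congr rfl fun y _ => ?_
    rw [Finset.sum_congr rfl (g := fun _ => (starRingEnd ℂ) (ρ.character (FreeGroup.lift y w)))]
    · rw [Finset.sum_const, nsmul_eq_mul]
      congr 1
      have : (Finset.univ.filter fun x : Fin r → G => π ∘ x = y) =
          Fintype.piFinset fun i => Finset.univ.filter fun g => π g = y i := by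
        ext x
        simp [funext_iff]
      rw [this, Fintype.card_piFinset]
      have h2 : ∀ i, (Finset.univ.filter fun g => π g = y i).card = Nat.card N := by
        intro i
        obtain ⟨g, hg⟩ := hπ (y i)
        rw [← Fintype.card_subtype, ← Nat.card_eq_fintype_card]
        symm
        refine Nat.card_congr (Equiv.ofBijective (fun k => ⟨g * k.1, ?_⟩) ⟨?_, ?_⟩)
        · rw [map_mul, hg, show π k.1 = 1 from (QuotientGroup.eq_one_iff _).2 k.2, mul_one]
        · intro k k' h
          exact Subtype.ext (mul_left_cancel (congrArg Subtype.val h))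
        · rintro ⟨x, hx⟩
          refine ⟨⟨g⁻¹ * x, ?_⟩, by simp⟩
          rw [← QuotientGroup.eq_one_iff]
          change π (g⁻¹ * x) = 1
          rw [map_mul, map_inv, hg, hx, inv_mul_cancel]
      simp [h2]
    · intro x hx
      rw [← (Finset.mem_filter.1 hx).2]
      congr 1
      have : FreeGroup.lift (π ∘ x) = π.comp (FreeGroup.lift x) := by
        ext i; simp
      rw [this]
      rfl
  have hN : (Nat.card N : ℂ) ≠ 0 := Nat.cast_ne_zero.2 Nat.card_pos.ne'
  have hQ : (Nat.card (G ⧸ N) : ℂ) ≠ 0 := Nat.cast_ne_zero.2 Nat.card_pos.ne'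
  rw [hsum, Subgroup.card_eq_card_quotient_mul_card_subgroup N] at hm
  set c := (Nat.card (G ⧸ N) : ℂ)⁻¹ *
    ∑ y : Fin r → G ⧸ N, (starRingEnd ℂ) (ρ.character (FreeGroup.lift y w)) with hc
  obtain ⟨r', rfl⟩ : ∃ r', r = r' + 1 := ⟨r - 1, by omega⟩
  have hm' : (Nat.card N : ℂ) ^ r' * c = m := by
    rw [← hm, hc]; push_cast; field_simp; try ring
  rcases Nat.eq_zero_or_pos r' with h0 | h0
  · subst h0
    exact ⟨m, by simpa using hm'⟩
  · obtain ⟨d, t, ht, hw⟩ := exists_degree (r := r' + 1) (by omega) w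
    haveI : Fintype (FreeGroup (Fin (r' + 1)) →* G ⧸ N) := Fintype.ofEquiv _ FreeGroup.lift
    have hint := sum_integral d t ht w hw (fun g => (starRingEnd ℂ) (ρ.character g))
      (fun g h => by simp) (fun g => (char_integral ρ g).map (starRingEnd ℂ).toIntAlgHom)
    rw [← Equiv.sum_comp FreeGroup.lift, ← hc] at hint
    have hq : c = algebraMap ℚ ℂ ((m : ℚ) / (Nat.card N : ℚ) ^ r') := by
      simp only [eq_ratCast]
      push_cast
      rw [← hm']; field_simp
    rw [hq, isIntegral_algebraMap_iff (algebraMap ℚ ℂ).injective] at hint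
    obtain ⟨z, hz⟩ := IsIntegrallyClosed.isIntegral_iff.1 hint
    exact ⟨z, by rw [hq, ← hz]; simp⟩

end Pool.Agent.Results.MP_405423_al.Yes
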